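import Pool.Agent.Lib.MP_e13bdd_an.Meas

/-! The example on every infinite-dimensional separable Hilbert space, with an ergodic measure. -/

namespace Pool.Agent.Lib.MP_e13bdd_an

open MeasureTheory TopologicalSpace Filter

universe u

lemma iso_l2 (H : Type u) [NormedAddCommGroup H] [InnerProductSpace ℂ H] [CompleteSpace H]
    [SeparableSpace H] (h : ¬ FiniteDimensional ℂ H) :
    Nonempty (H ≃ₗᵢ[ℂ] lp (fun _ : ℕ => ℂ) 2) := by
  obtain ⟨w, b, -⟩ := exists_hilbertBasis ℂ H
  have hb := b.orthonormal
  have hc : Countable w := by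
    refine Pairwise.countable_of_isOpen_disjoint (s := fun i => Metric.ball (b i) (1 / 2))
      (fun i j hij => Metric.ball_disjoint_ball ?_) (fun _ => Metric.isOpen_ball)
      fun _ => Metric.nonempty_ball.2 (by norm_num)
    have h1 : inner ℂ (b i) (b i - b j) = 1 := by
      rw [inner_sub_right, hb.2 hij, inner_self_eq_norm_sq_to_K, hb.1 i]; simp
    have h2 := norm_inner_le_norm (𝕜 := ℂ) (b i) (b i - b j)
    rw [h1, hb.1 i, norm_one, one_mul] at h2
    rw [dist_eq_norm]; linarith
  have hi : Infinite w := by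
    refine not_finite_iff_infinite.1 fun hf => h ?_
    have h1 : FiniteDimensional ℂ (Submodule.span ℂ (Set.range b)) :=
      FiniteDimensional.span_of_finite ℂ (Set.finite_range _)
    have h2 := b.dense_span
    rw [(Submodule.closed_of_finiteDimensional _).submodule_topologicalClosure_eq] at h2
    rw [h2] at h1
    exact Submodule.topEquiv.finiteDimensional
  obtain ⟨e⟩ : Nonempty (ℕ ≃ w) := nonempty_equiv_of_countable
  refine ⟨(HilbertBasis.mk (hb.comp e e.injective) ?_).repr⟩
  rw [e.surjective.range_comp, b.dense_span]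

lemma muH_zero : muH {0} = 0 := by
  unfold muH
  rw [Measure.map_apply_of_aemeasurable aemeasurable_FH (measurableSet_singleton 0)]
  refine measure_mono_null ?_ ae_good
  intro z hz hg
  apply fv_ne hg
  rw [← FH_coe hg, show FH z = 0 from hz]
  rfl

lemma ergodic_sub : Ergodic (fun z : ℤ_[2] => z - 1) PP := by
  have e : (fun z : ℤ_[2] => z - 1) = fun z => (-1) + z := by ext z; ring
  rw [e]
  refine ergodic_add_left_of_denseRange_zsmul ?_ PP
  have : (fun n : ℤ => n • (-1 : ℤ_[2])) = (fun n : ℤ => (n : ℤ_[2])) ∘ fun n => -n := by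
    ext n; simp
  rw [this]
  exact PadicInt.denseRange_intCast.comp neg_surjective.denseRange continuous_of_discreteTopology

lemma ergodic_TH : Ergodic TH muH := by
  refine ⟨⟨TH.continuous.measurable, map_TH⟩, ⟨fun s hs hT => ?_⟩⟩
  have h1 : EventuallyConst (FH ⁻¹' s) (ae PP) := by
    refine ergodic_sub.quasiErgodic.aeconst_set₀ (aemeasurable_FH.nullMeasurable hs) ?_
    filter_upwards [ae_good] with z hz
    show (FH (z - 1) ∈ s) = (FH z ∈ s)
    rw [← TH_FH hz, ← Set.mem_preimage, hT]
  rcases eventuallyConst_set.1 h1 with h | h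
  · exact eventuallyConst_set.2 (Or.inl ((ae_map_iff aemeasurable_FH hs).2 h))
  · exact eventuallyConst_set.2 (Or.inr ((ae_map_iff aemeasurable_FH hs.compl).2 h))

lemma not_fin : ¬ FiniteDimensional ℂ Hs := by
  intro h
  have : Nontrivial Hs := by
    by_contra hn
    have hs := not_nontrivial_iff_subsingleton.1 hn
    have h1 := muH_zero
    rw [Subsingleton.eq_univ_of_nonempty (Set.singleton_nonempty (0 : Hs)), measure_univ] at h1
    exact one_ne_zero h1
  obtain ⟨c, hc⟩ := Module.End.exists_eigenvalue (TH : Module.End ℂ Hs)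
  obtain ⟨x, hx⟩ := hc.exists_hasEigenvector
  exact hx.2 (no_eigen c x hx.apply_eq_smul)

theorem every (H : Type u) [NormedAddCommGroup H] [InnerProductSpace ℂ H] [CompleteSpace H]
    [SeparableSpace H] [MeasurableSpace H] [BorelSpace H] (h : ¬ FiniteDimensional ℂ H) :
    ∃ (T : H →L[ℂ] H) (μ : Measure H), IsProbabilityMeasure μ ∧
      (∀ A, MeasurableSet A → μ (T ⁻¹' A) = μ A) ∧ μ {0} = 0 ∧
      (∀ A, MeasurableSet A → T ⁻¹' A = A → μ A = 0 ∨ μ A = 1) ∧
      ∀ (c : ℂ) (x : H), T x = c • x → x = 0 := by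
  have := separable_Amb
  have : SecondCountableTopology Amb := UniformSpace.secondCountable_of_separable _
  have : CompleteSpace Hs := isClosed_Hs.completeSpace_coe
  obtain ⟨e₁⟩ := iso_l2 Hs not_fin
  obtain ⟨e₂⟩ := iso_l2 H h
  let e : Hs ≃L[ℂ] H := (e₁.trans e₂.symm).toContinuousLinearEquiv
  have hm : Measurable e := e.continuous.measurable
  let T : H →L[ℂ] H := (e : Hs →L[ℂ] H) ∘L TH ∘L (e.symm : H →L[ℂ] Hs)
  have hT : ∀ x, T x = e (TH (e.symm x)) := fun _ => rfl
  have hp : IsProbabilityMeasure (muH.map e) := Measure.isProbabilityMeasure_map hm.aemeasurable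
  have he : Ergodic T (muH.map e) :=
    MeasurePreserving.ergodic_of_ergodic_semiconj ⟨hm, rfl⟩ ergodic_TH T.continuous.measurable
      fun x => by rw [hT, e.symm_apply_apply]
  refine ⟨T, muH.map e, hp, fun A hA => he.measure_preimage hA.nullMeasurableSet, ?_,
    fun A hA hTA => he.prob_eq_zero_or_one hA hTA, fun c x hx => ?_⟩
  · rw [Measure.map_apply hm (measurableSet_singleton 0)]
    refine measure_mono_null (fun x hx => ?_) muH_zero
    exact e.injective ((show e x = 0 from hx).trans (map_zero e).symm)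
  · have h1 : TH (e.symm x) = c • e.symm x :=
      e.injective (by rw [← hT, hx, map_smul, e.apply_symm_apply])
    rw [← e.apply_symm_apply x, no_eigen c _ h1, map_zero]

end Pool.Agent.Lib.MP_e13bdd_an
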