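import Mathlib

-- part Pool.Agent.Lib.MP_e13bdd_an.Space
section

set_option autoImplicit false

open scoped ENNReal

namespace Pool.Agent.Lib.MP_e13bdd_an

/-- index set: disjoint union of the cyclic groups of order 2^k -/
abbrev Idx : Type := Σ k : ℕ, ZMod (2 ^ k)

/-- ambient l2 space -/
abbrev Amb : Type := lp (fun _ : Idx => ℂ) 2

/-- weights -/
noncomputable def wt (k : ℕ) (j : ZMod (2 ^ k)) : ℝ := 2 ^ (2 * k - j.val) / 2 ^ k

lemma wt_pos (k : ℕ) (j : ZMod (2 ^ k)) : 0 < wt k j := by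
  unfold wt; positivity

lemma wt_le (k : ℕ) (j : ZMod (2 ^ k)) : wt k j ≤ 2 * wt k (j + 1) := by
  unfold wt
  have h1 : (j + 1).val ≤ j.val + 1 := by
    refine (ZMod.val_add_le j 1).trans ?_
    have : (1 : ZMod (2 ^ k)).val ≤ 1 := by
      rw [ZMod.val_one_eq_one_mod]; exact Nat.mod_le _ _
    omega
  have h2 : 2 * k - j.val ≤ (2 * k - (j + 1).val) + 1 := by omega
  have h3 : (2 : ℝ) ^ (2 * k - j.val) ≤ 2 ^ ((2 * k - (j + 1).val) + 1) :=
    pow_le_pow_right₀ (by norm_num) h2
  rw [pow_succ] at h3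
  rw [← mul_div_assoc]
  apply div_le_div_of_nonneg_right _ (by positivity)
  linarith

lemma wt_zero (k : ℕ) : wt k 0 = 2 ^ k := by
  unfold wt
  rw [ZMod.val_zero, Nat.sub_zero, two_mul, pow_add]
  field_simp

lemma wt_big (k : ℕ) (j : ZMod (2 ^ k)) (h : 2 * k ≤ j.val) : wt k j = (1 / 2) ^ k := by
  unfold wt
  rw [Nat.sub_eq_zero_of_le h]
  simp

/-- the shift on indices -/
def sh : Idx ≃ Idx := Equiv.sigmaCongrRight (fun k => Equiv.addRight (1 : ZMod (2 ^ k)))

@[simp] lemma sh_apply (k : ℕ) (j : ZMod (2 ^ k)) : sh ⟨k, j⟩ = ⟨k, j + 1⟩ := rfl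

/-- multiplier -/
noncomputable def mul (i : Idx) : ℝ := wt i.1 i.2 / wt i.1 (i.2 + 1)

lemma mul_nonneg' (i : Idx) : 0 ≤ mul i := (div_pos (wt_pos _ _) (wt_pos _ _)).le

lemma mul_le (i : Idx) : mul i ≤ 2 := by
  unfold mul
  rw [div_le_iff₀ (wt_pos _ _)]
  exact wt_le _ _

lemma two_toReal : (2 : ℝ≥0∞).toReal = 2 := by norm_num

lemma summable_sq (x : Amb) : Summable fun i => ‖x i‖ ^ (2 : ℝ≥0∞).toReal :=
  (lp.memℓp x).summable (by norm_num)

lemma term_le (x : Amb) (i : Idx) :
    ‖(mul i : ℂ) * x (sh i)‖ ^ (2 : ℝ≥0∞).toReal ≤ 4 * ‖x (sh i)‖ ^ (2 : ℝ≥0∞).toReal := by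
  rw [two_toReal, norm_mul, Complex.norm_real, Real.norm_of_nonneg (mul_nonneg' i)]
  rw [Real.rpow_two, Real.rpow_two, mul_pow]
  have h := mul_le i
  have h0 := mul_nonneg' i
  have : mul i ^ 2 ≤ 4 := by nlinarith
  exact mul_le_mul_of_nonneg_right this (by positivity)

lemma summable_sh (x : Amb) : Summable fun i => ‖x (sh i)‖ ^ (2 : ℝ≥0∞).toReal :=
  (sh.summable_iff (f := fun i => ‖x i‖ ^ (2 : ℝ≥0∞).toReal)).2 (summable_sq x)

lemma summable_T (x : Amb) : Summable fun i => ‖(mul i : ℂ) * x (sh i)‖ ^ (2 : ℝ≥0∞).toReal :=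
  Summable.of_nonneg_of_le (fun _ => by positivity) (term_le x) ((summable_sh x).mul_left 4)

/-- the weighted shift as a linear map -/
noncomputable def Tlin : Amb →ₗ[ℂ] Amb where
  toFun x := ⟨fun i => (mul i : ℂ) * x (sh i), memℓp_gen (summable_T x)⟩
  map_add' x y := by
    ext i
    simp only [lp.coeFn_add, Pi.add_apply, mul_add]
  map_smul' c x := by
    ext i
    simp
    ring

lemma Tlin_apply (x : Amb) (i : Idx) : Tlin x i = (mul i : ℂ) * x (sh i) := rfl

lemma Tlin_bound (x : Amb) : ‖Tlin x‖ ≤ 2 * ‖x‖ := by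
  apply lp.norm_le_of_tsum_le (by norm_num) (by positivity)
  have h1 : ∑' i, ‖Tlin x i‖ ^ (2 : ℝ≥0∞).toReal ≤ ∑' i, 4 * ‖x (sh i)‖ ^ (2 : ℝ≥0∞).toReal :=
    Summable.tsum_le_tsum (term_le x) (summable_T x) ((summable_sh x).mul_left 4)
  rw [tsum_mul_left, sh.tsum_eq (fun i => ‖x i‖ ^ (2 : ℝ≥0∞).toReal),
    ← lp.norm_rpow_eq_tsum (by norm_num) x] at h1
  refine h1.trans (le_of_eq ?_)
  rw [two_toReal, Real.rpow_two, Real.rpow_two]
  ring

/-- the weighted shift -/
noncomputable def Tamb : Amb →L[ℂ] Amb := Tlin.mkContinuous 2 Tlin_bound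

lemma Tamb_apply (x : Amb) (i : Idx) : Tamb x i = (mul i : ℂ) * x (sh i) := rfl

/-- unweighted coordinates -/
noncomputable def nu (x : Amb) (k : ℕ) (j : ZMod (2 ^ k)) : ℂ := x ⟨k, j⟩ / (wt k j : ℂ)

lemma wt_ne (k : ℕ) (j : ZMod (2 ^ k)) : (wt k j : ℂ) ≠ 0 := by
  exact_mod_cast (wt_pos k j).ne'

lemma nu_T (x : Amb) (k : ℕ) (j : ZMod (2 ^ k)) : nu (Tamb x) k j = nu x k (j + 1) := by
  unfold nu
  rw [Tamb_apply, sh_apply]
  unfold mul
  have := wt_ne k j
  have := wt_ne k (j + 1)
  push_cast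
  field_simp

lemma nu_add (x y : Amb) (k : ℕ) (j : ZMod (2 ^ k)) : nu (x + y) k j = nu x k j + nu y k j := by
  unfold nu; simp [add_div]

lemma nu_smul (c : ℂ) (x : Amb) (k : ℕ) (j : ZMod (2 ^ k)) : nu (c • x) k j = c * nu x k j := by
  unfold nu; simp [mul_div_assoc]

lemma nu_zero (k : ℕ) (j : ZMod (2 ^ k)) : nu 0 k j = 0 := by
  unfold nu; simp

lemma continuous_nu (k : ℕ) (j : ZMod (2 ^ k)) : Continuous fun x : Amb => nu x k j := by
  unfold nu
  exact ((lp.evalCLM ℂ (fun _ : Idx => ℂ) 2 ⟨k, j⟩).continuous).div_const _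

/-- reduction map -/
def red (k : ℕ) : ZMod (2 ^ (k + 1)) →+* ZMod (2 ^ k) :=
  ZMod.castHom (pow_dvd_pow 2 (Nat.le_succ k)) (ZMod (2 ^ k))

/-- compatible sequences -/
def Hs : Submodule ℂ Amb where
  carrier := {x | ∀ k j, nu x k j = ∑ i : ZMod (2 ^ (k + 1)), if red k i = j then nu x (k + 1) i else 0}
  add_mem' := by
    intro x y hx hy k j
    rw [nu_add, hx k j, hy k j, ← Finset.sum_add_distrib]
    refine Finset.sum_congr rfl fun i _ => ?_
    rw [nu_add]; split_ifs <;> simp
  zero_mem' := by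
    intro k j
    simp [nu_zero]
  smul_mem' := by
    intro c x hx k j
    rw [nu_smul, hx k j, Finset.mul_sum]
    refine Finset.sum_congr rfl fun i _ => ?_
    rw [nu_smul]; split_ifs <;> simp

lemma mem_Hs {x : Amb} : x ∈ Hs ↔
    ∀ k j, nu x k j = ∑ i : ZMod (2 ^ (k + 1)), if red k i = j then nu x (k + 1) i else 0 := Iff.rfl

lemma isClosed_Hs : IsClosed (Hs : Set Amb) := by
  have : (Hs : Set Amb) = ⋂ k, ⋂ j, {x : Amb | nu x k j =
      ∑ i : ZMod (2 ^ (k + 1)), if red k i = j then nu x (k + 1) i else 0} := by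
    ext x; simp [mem_Hs]
  rw [this]
  refine isClosed_iInter fun k => isClosed_iInter fun j => isClosed_eq (continuous_nu k j) ?_
  refine continuous_finsetSum _ fun i _ => ?_
  split_ifs
  · exact continuous_nu _ _
  · exact continuous_const

lemma T_mem {x : Amb} (hx : x ∈ Hs) : Tamb x ∈ Hs := by
  intro k j
  rw [nu_T, hx k (j + 1)]
  symm
  refine Fintype.sum_equiv (Equiv.addRight 1) _ _ fun i => ?_
  simp only [Equiv.coe_addRight, map_add, map_one, add_left_inj, nu_T]

/-- the operator on the closed subspace -/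
noncomputable def TH : Hs →L[ℂ] Hs := (Tamb.comp Hs.subtypeL).codRestrict Hs fun x => T_mem x.2

lemma TH_coe (x : Hs) : (TH x : Amb) = Tamb x := rfl

/-- total variation at level k -/
noncomputable def tv (x : Amb) (k : ℕ) : ℝ := ∑ j : ZMod (2 ^ k), ‖nu x k j‖

lemma tv_nonneg (x : Amb) (k : ℕ) : 0 ≤ tv x k := Finset.sum_nonneg fun _ _ => norm_nonneg _

lemma tv_le_succ {x : Amb} (hx : x ∈ Hs) (k : ℕ) : tv x k ≤ tv x (k + 1) := by
  unfold tv
  calc ∑ j : ZMod (2 ^ k), ‖nu x k j‖
      ≤ ∑ j : ZMod (2 ^ k), ∑ i : ZMod (2 ^ (k + 1)),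
          if red k i = j then ‖nu x (k + 1) i‖ else 0 := by
        refine Finset.sum_le_sum fun j _ => ?_
        rw [hx k j]
        refine (norm_sum_le _ _).trans (Finset.sum_le_sum fun i _ => ?_)
        split_ifs <;> simp
    _ = ∑ i : ZMod (2 ^ (k + 1)), ‖nu x (k + 1) i‖ := by
        rw [Finset.sum_comm]
        refine Finset.sum_congr rfl fun i _ => ?_
        simp

lemma tv_mono {x : Amb} (hx : x ∈ Hs) : Monotone (tv x) :=
  monotone_nat_of_le_succ (tv_le_succ hx)

lemma no_eigen (c : ℂ) (x : Hs) (h : TH x = c • x) : x = 0 := by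
  by_contra hne
  have h' : Tamb (x : Amb) = c • (x : Amb) := by
    rw [← TH_coe, h]; rfl
  have hnu : ∀ k j, nu (x : Amb) k (j + 1) = c * nu (x : Amb) k j := by
    intro k j
    rw [← nu_T, h', nu_smul]
  have hex : ∃ k, 0 < tv (x : Amb) k := by
    by_contra hall
    push Not at hall
    apply hne
    apply Subtype.ext
    apply lp.ext
    funext i
    obtain ⟨k, j⟩ := i
    have h0 : tv (x : Amb) k = 0 := le_antisymm (hall k) (tv_nonneg _ _)
    unfold tv at h0
    rw [Finset.sum_eq_zero_iff_of_nonneg fun _ _ => norm_nonneg _] at h0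
    have h1 := h0 j (Finset.mem_univ _)
    rw [norm_eq_zero] at h1
    unfold nu at h1
    rcases div_eq_zero_iff.1 h1 with h2 | h2
    · simpa using h2
    · exact absurd h2 (wt_ne k j)
  obtain ⟨k0, hk0⟩ := hex
  have hc : ‖c‖ = 1 := by
    have h1 : tv (x : Amb) k0 = ‖c‖ * tv (x : Amb) k0 := by
      unfold tv
      rw [Finset.mul_sum]
      symm
      refine Fintype.sum_equiv (Equiv.addRight 1) _ _ fun j => ?_
      simp only [Equiv.coe_addRight, hnu, norm_mul]
    have := mul_right_cancel₀ hk0.ne' (h1.symm.trans (one_mul _).symm)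
    exact this
  have hconst : ∀ k (j : ZMod (2 ^ k)), ‖nu (x : Amb) k j‖ = ‖nu (x : Amb) k 0‖ := by
    intro k j
    have : ∀ n : ℕ, ‖nu (x : Amb) k (n : ZMod (2 ^ k))‖ = ‖nu (x : Amb) k 0‖ := by
      intro n
      induction n with
      | zero => simp
      | succ n ih => rw [Nat.cast_succ, hnu, norm_mul, hc, one_mul, ih]
    rw [← ZMod.natCast_zmod_val j]
    exact this _
  have hval : ∀ k, ‖(x : Amb) ⟨k, 0⟩‖ = tv (x : Amb) k := by
    intro k
    unfold tv
    rw [Finset.sum_congr rfl fun j _ => hconst k j]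
    simp only [Finset.sum_const, Finset.card_univ, ZMod.card, nsmul_eq_mul]
    unfold nu
    rw [norm_div, Complex.norm_real, wt_zero, Real.norm_of_nonneg (by positivity)]
    push_cast
    field_simp
  have hinj : Function.Injective (fun k : ℕ => (⟨k, 0⟩ : Idx)) := by
    intro a b hab
    exact congrArg Sigma.fst hab
  have hs := (summable_sq (x : Amb)).comp_injective hinj
  have ht := hs.tendsto_atTop_zero
  have hev := ht.eventually (gt_mem_nhds (show (0 : ℝ) < (tv (x : Amb) k0) ^ 2 by positivity))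
  obtain ⟨k, hk1, hk2⟩ := (hev.and (Filter.eventually_ge_atTop k0)).exists
  simp only [Function.comp_apply, hval, two_toReal, Real.rpow_two] at hk1
  have := tv_mono x.2 hk2
  nlinarith

instance : Countable Idx := inferInstance

lemma separable_Amb : TopologicalSpace.SeparableSpace Amb := by
  rw [← TopologicalSpace.isSeparable_univ_iff]
  let s : Set Amb := Set.range fun i : Idx => lp.single 2 i (1 : ℂ)
  have hs : TopologicalSpace.IsSeparable s := (Set.countable_range _).isSeparable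
  refine (hs.span (R := ℂ)).closure.mono ?_
  intro x _
  refine mem_closure_of_tendsto (lp.hasSum_single (by norm_num) x) (Filter.Eventually.of_forall ?_)
  intro t
  refine Submodule.sum_mem _ fun i _ => ?_
  have : lp.single 2 i (x i) = (x i) • (lp.single 2 i (1 : ℂ) : Amb) := by
    rw [← lp.single_smul]; simp
  rw [this]
  exact Submodule.smul_mem _ _ (Submodule.subset_span ⟨i, rfl⟩)

end Pool.Agent.Lib.MP_e13bdd_an
end

-- part Pool.Agent.Lib.MP_e13bdd_an.Meas
section

set_option autoImplicit false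

open scoped ENNReal Topology
open MeasureTheory Filter

namespace Pool.Agent.Lib.MP_e13bdd_an

/-- reduction of a 2-adic integer -/
noncomputable def pk (k : ℕ) : ℤ_[2] →+* ZMod (2 ^ k) := PadicInt.toZModPow k

lemma red_pk (k : ℕ) (z : ℤ_[2]) : red k (pk (k + 1) z) = pk k z := by
  unfold red pk
  rw [← PadicInt.zmod_cast_comp_toZModPow k (k + 1) (Nat.le_succ k)]
  rfl

lemma pk_locConst (k : ℕ) : IsLocallyConstant (pk k) := by
  rw [IsLocallyConstant.iff_eventually_eq]
  intro x
  have hpos : (0 : ℝ) < ((2 : ℕ) : ℝ) ^ (-(k : ℤ)) := by positivity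
  filter_upwards [Metric.ball_mem_nhds x hpos] with y hy
  rw [mem_ball_iff_norm] at hy
  have h1 := (PadicInt.norm_le_pow_iff_mem_span_pow (y - x) k).1 hy.le
  rw [← PadicInt.ker_toZModPow, RingHom.mem_ker, map_sub, sub_eq_zero] at h1
  exact h1

/-- the k-th term -/
noncomputable def gv (k : ℕ) (j : ZMod (2 ^ k)) : Amb := lp.single 2 ⟨k, j⟩ (wt k j : ℂ)

lemma norm_gv (k : ℕ) (j : ZMod (2 ^ k)) : ‖gv k j‖ = wt k j := by
  unfold gv
  rw [lp.norm_single (by norm_num), Complex.norm_real, Real.norm_of_nonneg (wt_pos k j).le]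

/-- good points -/
def Good (z : ℤ_[2]) : Prop := Summable fun k => wt k (pk k z)

/-- the vector attached to a point -/
noncomputable def fv (z : ℤ_[2]) : Amb := ∑' k, gv k (pk k z)

lemma Good.summable {z : ℤ_[2]} (h : Good z) : Summable fun k => gv k (pk k z) := by
  apply Summable.of_norm
  simp only [norm_gv]
  exact h

lemma Good.sub_one {z : ℤ_[2]} (h : Good z) : Good (z - 1) := by
  refine Summable.of_nonneg_of_le (fun k => (wt_pos _ _).le) (fun k => ?_) (Summable.mul_left 2 h)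
  have := wt_le k (pk k (z - 1))
  rwa [show pk k (z - 1) + 1 = pk k z by simp] at this

lemma nu_fv {z : ℤ_[2]} (h : Good z) (k : ℕ) (j : ZMod (2 ^ k)) :
    nu (fv z) k j = if j = pk k z then 1 else 0 := by
  have h1 : (fv z) ⟨k, j⟩ = ∑' m, (gv m (pk m z)) ⟨k, j⟩ :=
    (lp.evalCLM ℂ (fun _ : Idx => ℂ) 2 ⟨k, j⟩).map_tsum h.summable
  unfold nu
  rw [h1, tsum_eq_single k]
  · unfold gv
    split_ifs with hj
    · subst hj
      rw [lp.single_apply_self]
      exact div_self (wt_ne _ _)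
    · rw [lp.single_apply_ne]
      · simp
      · intro hh
        apply hj
        simpa using hh
  · intro m hm
    unfold gv
    rw [lp.single_apply_ne]
    intro hh
    exact hm (congrArg Sigma.fst hh).symm

lemma fv_mem {z : ℤ_[2]} (h : Good z) : fv z ∈ Hs := by
  intro k j
  simp only [nu_fv h]
  rw [Finset.sum_eq_single (pk (k + 1) z)]
  · simp only [red_pk, if_true]
    by_cases hj : j = pk k z
    · simp [hj]
    · rw [if_neg hj, if_neg (Ne.symm hj)]
  · intro b _ hb
    simp [hb]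
  · simp

lemma ext_nu {x y : Amb} (h : ∀ k j, nu x k j = nu y k j) : x = y := by
  apply lp.ext
  funext i
  obtain ⟨k, j⟩ := i
  have := h k j
  unfold nu at this
  exact (div_left_inj' (wt_ne k j)).1 this

lemma T_fv {z : ℤ_[2]} (h : Good z) : Tamb (fv z) = fv (z - 1) := by
  apply ext_nu
  intro k j
  rw [nu_T, nu_fv h, nu_fv h.sub_one, map_sub, map_one]
  simp only [eq_sub_iff_add_eq]

lemma fv_ne {z : ℤ_[2]} (h : Good z) : fv z ≠ 0 := by
  intro h0
  have := nu_fv h 0 (pk 0 z)
  rw [h0, nu_zero] at this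
  simp at this

open Classical in
/-- the vector in the subspace -/
noncomputable def FH (z : ℤ_[2]) : Hs := if h : Good z then ⟨fv z, fv_mem h⟩ else 0

lemma FH_coe {z : ℤ_[2]} (h : Good z) : (FH z : Amb) = fv z := by
  unfold FH; rw [dif_pos h]

lemma TH_FH {z : ℤ_[2]} (h : Good z) : TH (FH z) = FH (z - 1) := by
  apply Subtype.ext
  rw [TH_coe, FH_coe h, FH_coe h.sub_one, T_fv h]

noncomputable instance instMeasZ : MeasurableSpace ℤ_[2] := borel _
instance instBorelZ : BorelSpace ℤ_[2] := ⟨rfl⟩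
noncomputable instance instMeasAmb : MeasurableSpace Amb := borel _
instance instBorelAmb : BorelSpace Amb := ⟨rfl⟩

/-- Haar probability measure -/
noncomputable def PP : Measure ℤ_[2] := Measure.addHaarMeasure ⊤

instance : IsProbabilityMeasure PP := ⟨Measure.addHaarMeasure_self⟩
instance : PP.IsAddLeftInvariant := by unfold PP; infer_instance

lemma measurableSet_fiber (k : ℕ) (s : Set (ZMod (2 ^ k))) : MeasurableSet (pk k ⁻¹' s) :=
  (pk_locConst k s).measurableSet

lemma fiber_eq (k : ℕ) (j : ZMod (2 ^ k)) : PP (pk k ⁻¹' {j}) = PP (pk k ⁻¹' {0}) := by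
  have : pk k ⁻¹' {0} = (fun z => (j.val : ℤ_[2]) + z) ⁻¹' (pk k ⁻¹' {j}) := by
    ext z
    simp
  rw [this, measure_preimage_add]

lemma fiber_finset (k : ℕ) (s : Finset (ZMod (2 ^ k))) :
    PP (pk k ⁻¹' s) = s.card * PP (pk k ⁻¹' {0}) := by
  rw [← sum_measure_preimage_singleton s fun j _ => measurableSet_fiber k {j}]
  simp [fiber_eq]

lemma fiber_zero (k : ℕ) : PP (pk k ⁻¹' {0}) = (2⁻¹ : ℝ≥0∞) ^ k := by
  have h := fiber_finset k Finset.univ
  simp only [Finset.coe_univ, Set.preimage_univ, measure_univ, Finset.card_univ, ZMod.card] at h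
  rw [← ENNReal.inv_pow]
  push_cast at h
  exact ENNReal.eq_inv_of_mul_eq_one_left (by rw [mul_comm]; exact h.symm)

/-- the holes -/
def hole (k : ℕ) : Finset (ZMod (2 ^ k)) := Finset.univ.filter fun j => j.val < 2 * k

lemma card_hole (k : ℕ) : (hole k).card ≤ 2 * k := by
  have : (hole k).card ≤ (Finset.range (2 * k)).card := by
    refine Finset.card_le_card_of_injOn ZMod.val ?_ ?_
    · intro j hj
      simpa [hole] using hj
    · exact (ZMod.val_injective _).injOn
  simpa using this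

lemma tsum_hole : ∑' k, PP (pk k ⁻¹' (hole k)) ≠ ∞ := by
  have hs : Summable fun k : ℕ => (2 * (k : ℝ)) * (1 / 2) ^ k := by
    have := (summable_pow_mul_geometric_of_norm_lt_one 1 (r := (1 / 2 : ℝ))
      (by rw [Real.norm_of_nonneg] <;> norm_num)).mul_left 2
    simpa [mul_assoc] using this
  refine ne_top_of_le_ne_top (hs.tsum_ofReal_ne_top) (ENNReal.tsum_le_tsum fun k => ?_)
  rw [fiber_finset, fiber_zero]
  have h1 : ((hole k).card : ℝ≥0∞) ≤ ((2 * k : ℕ) : ℝ≥0∞) := by exact_mod_cast card_hole k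
  refine (mul_le_mul_left h1 _).trans (le_of_eq ?_)
  rw [ENNReal.ofReal_mul (by positivity), ENNReal.ofReal_pow (by norm_num),
    ENNReal.ofReal_mul (by norm_num)]
  simp [ENNReal.ofReal_inv_of_pos]

lemma ae_good : ∀ᵐ z ∂PP, Good z := by
  filter_upwards [ae_eventually_notMem tsum_hole] with z hz
  refine Summable.of_norm_bounded_eventually_nat summable_geometric_two ?_
  filter_upwards [hz] with k hk
  have : 2 * k ≤ (pk k z).val := by simpa [hole] using hk
  rw [wt_big _ _ this, Real.norm_of_nonneg (by positivity)]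

lemma aemeasurable_fv : AEMeasurable fv PP := by
  refine aemeasurable_of_tendsto_metrizable_ae'
    (f := fun n z => ∑ k ∈ Finset.range n, gv k (pk k z)) (fun n => ?_) ?_
  · refine (Continuous.measurable ?_).aemeasurable
    refine continuous_finsetSum _ fun k _ => ?_
    exact ((pk_locConst k).comp (gv k)).continuous
  · filter_upwards [ae_good] with z hz
    exact hz.summable.hasSum.tendsto_sum_nat

lemma aemeasurable_FH : AEMeasurable FH PP := by
  have h1 : AEMeasurable (fun z => (FH z : Amb)) PP := by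
    refine aemeasurable_fv.congr ?_
    filter_upwards [ae_good] with z hz
    exact (FH_coe hz).symm
  exact h1.subtype_mk (s := (Hs : Set Amb)) (hfs := fun z => (FH z).2)

/-- the invariant measure -/
noncomputable def muH : Measure Hs := PP.map FH

instance : IsProbabilityMeasure muH := Measure.isProbabilityMeasure_map aemeasurable_FH

lemma map_sub_one : PP.map (fun z : ℤ_[2] => z - 1) = PP := by
  have : (fun z : ℤ_[2] => z - 1) = fun z => (-1) + z := by ext z; ring
  rw [this, map_add_left_eq_self]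

lemma map_TH : muH.map TH = muH := by
  unfold muH
  rw [AEMeasurable.map_map_of_aemeasurable TH.continuous.measurable.aemeasurable aemeasurable_FH]
  have h1 : (TH ∘ FH) =ᵐ[PP] FH ∘ fun z : ℤ_[2] => z - 1 := by
    filter_upwards [ae_good] with z hz
    exact TH_FH hz
  rw [Measure.map_congr h1, ← AEMeasurable.map_map_of_aemeasurable, map_sub_one]
  · rw [map_sub_one]; exact aemeasurable_FH
  · exact (continuous_id.sub continuous_const).measurable.aemeasurable

lemma muH_ne : muH ≠ Measure.dirac 0 := by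
  intro h
  have h1 : muH {0} = 0 := by
    unfold muH
    rw [Measure.map_apply_of_aemeasurable aemeasurable_FH (measurableSet_singleton 0)]
    refine measure_mono_null ?_ ae_good
    intro z hz hg
    apply fv_ne hg
    rw [← FH_coe hg, show FH z = 0 from hz]
    rfl
  rw [h] at h1
  simp at h1

end Pool.Agent.Lib.MP_e13bdd_an
end
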